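import Mathlib
import Pool.Agent.H82.CongMain

set_option autoImplicit false

/-!
# Congruent triangles and tetrahedra in three-space

The definitions are in `Pool.Agent.H82.CongDefs`.  Many integer quaternions share the same norm
`c`: modulo a product `M` of odd primes the sum of four squares has
`M ^ 3 * ∏ (1 + 1 / p - 1 / p ^ 2)` zeros, so some multiple `c` of `M` is the norm of
`≫ c * log log c` nonnegative quaternions.  Each of them gives three integer vectors of
length `c`, pairwise orthogonal, different for different quaternions, and all of them may be
placed at each point of the middle part of the cubic grid of side `3 c`.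
-/

namespace Pool.Agent.Results.MP_62c479_co.LogLogLowerBound

open Pool.Agent.H82.Cong Filter

/-- For `k = 2` and for `k = 3` the ratio `C_{3,k}(n) / n ^ (3/2 - 1/6)` tends to infinity, at
least as fast as a constant times `log log n`. -/
theorem result : ∃ κ : ℝ, 0 < κ ∧ ∀ k : ℕ, (k = 2 ∨ k = 3) → ∀ᶠ n : ℕ in atTop,
    κ * Real.log (Real.log n) ≤ (maxCopies 3 k n : ℝ) / (n : ℝ) ^ ((3 : ℝ) / 2 - 1 / 6) :=
  main

end Pool.Agent.Results.MP_62c479_co.LogLogLowerBound
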